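import Mathlib
import Pool.Agent.N580.NS.Stm

/-!
# Project NS, part GB
-/

namespace Pool.Agent.N369.NSGB

open Subgroup Pool.Agent.N580 Pool.Agent.N580.NS
open scoped commutatorElement

theorem pow_dvd_sylow {T : Type} [Group T] [Finite T] (C : Subgroup T) [C.Normal] (r n : ℕ)
    [hr : Fact r.Prime] (S : Sylow r T) (h : r ^ n ∣ C.index) : r ^ n ∣ C.relIndex (S : Subgroup T) := by
  have h1 : C.relIndex ((S : Subgroup T) ⊔ C) * ((S : Subgroup T) ⊔ C).index = C.index :=
    Subgroup.relIndex_mul_index le_sup_right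
  have h2 : C.relIndex ((S : Subgroup T) ⊔ C) = C.relIndex (S : Subgroup T) := by
    rw [Subgroup.relIndex_sup_right]
  rw [h2] at h1
  have h3 : ((S : Subgroup T) ⊔ C).index ∣ (S : Subgroup T).index := Subgroup.index_dvd_of_le le_sup_left
  have h4 : ¬ r ∣ (S : Subgroup T).index := S.not_dvd_index
  have h5 : ¬ r ∣ ((S : Subgroup T) ⊔ C).index := fun h' => h4 (h'.trans h3)
  have h6 : Nat.Coprime (r ^ n) ((S : Subgroup T) ⊔ C).index :=
    Nat.Coprime.pow_left n ((Nat.Prime.coprime_iff_not_dvd hr.out).2 h5)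
  rw [← h1] at h
  exact h6.dvd_of_dvd_mul_right h

theorem gb (hD : DIR) : GB := by
  intro T _ _ R ι _ A hF q r e hq hr hqr hqe hre s hs hdvd
  classical
  have : Fact q.Prime := ⟨hq⟩
  have : Fact r.Prime := ⟨hr⟩
  have := hF.hR
  have hCn : (CQ T q).Normal := CQ_normal q
  have hAn : ∀ i, (A i).Normal := hF.hA
  have hCRn : (CQ T q ⊔ R).Normal := Subgroup.sup_normal _ _
  obtain ⟨hD1, hD2, -⟩ := hD T R ι A hF
  -- the intersections
  have h1 : ∀ i ∈ s, (CQ T q ⊔ R) ⊓ A i ≤ R := by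
    intro i hi
    rcases hF.simple i ((CQ T q ⊔ R) ⊓ A i) (le_inf le_sup_right (hF.le i)) inf_le_right
      (fun a _ x hx => ⟨hCRn.conj_mem x hx.1 a, (hAn i).conj_mem x hx.2 a⟩) with h | h
    · exact h.le
    · exact absurd (inf_eq_right.1 h) (hs i hi)
  set W : Subgroup T := R ⊔ ⨆ i ∈ s, A i with hW
  have hWn : W.Normal := by
    have : (⨆ i ∈ s, A i : Subgroup T).Normal :=
      Subgroup.biSup_normal (s : Set ι) A (fun i _ => hAn i)
    exact Subgroup.sup_normal _ _
  have h2 : W ⊓ (CQ T q ⊔ R) ≤ R := by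
    refine hD2 s _ inferInstance inf_le_left ?_
    intro i hi
    exact le_trans (inf_le_inf_right _ inf_le_right) (h1 i hi)
  have h3 : (CQ T q ⊔ R).relIndex W = R.relIndex W := by
    rw [← Subgroup.inf_relIndex_right]
    congr 1
    apply le_antisymm
    · rw [inf_comm]; exact h2
    · exact le_inf le_sup_right le_sup_left
  have h4 : r ^ s.card ∣ R.relIndex W := by
    rw [hD1 s, ← Finset.prod_const]
    exact Finset.prod_dvd_prod_of_dvd _ _ hdvd
  have h5 : r ^ s.card ∣ (CQ T q).index := by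
    refine h4.trans ?_
    rw [← h3]
    exact (Subgroup.relIndex_dvd_index_of_normal _ _).trans (Subgroup.index_dvd_of_le le_sup_left)
  obtain ⟨S⟩ : Nonempty (Sylow r T) := inferInstance
  have h6 := pow_dvd_sylow (CQ T q) r s.card S h5
  have h7 : 0 < (CQ T q).relIndex (S : Subgroup T) := by
    rw [Subgroup.relIndex]
    exact Nat.pos_of_ne_zero Subgroup.FiniteIndex.index_ne_zero
  have h8 := Nat.le_of_dvd h7 h6
  have h9 := card_le_CQ hq hr hqr hqe hre S.isPGroup'
  have h10 : Nat.card ((S : Subgroup T) ⊓ CQ T q : Subgroup T) * (CQ T q).relIndex (S : Subgroup T) =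
      Nat.card (S : Subgroup T) := by
    rw [inf_comm, ← Subgroup.inf_relIndex_right]
    have h := Subgroup.relIndex_mul_relIndex (⊥ : Subgroup T) (CQ T q ⊓ (S : Subgroup T))
      (S : Subgroup T) bot_le inf_le_right
    rwa [Subgroup.relIndex_bot_left, Subgroup.relIndex_bot_left] at h
  have hpos : 0 < Nat.card ((S : Subgroup T) ⊓ CQ T q : Subgroup T) := Nat.card_pos
  refine h8.trans (Nat.le_of_mul_le_mul_left ?_ hpos)
  rw [h10]
  exact h9

end Pool.Agent.N369.NSGB
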